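import Pool.Agent.T3h87.RP.Sp
import Pool.Agent.T3h87.LT.Sps3

/-!
# The traces of the members of polynomial families of elliptic curves, over number fields
-/

set_option autoImplicit false

namespace Pool.Agent.T3h87.HK

open Finset Polynomial NumberField IsDedekindDomain
open Pool.Agent.N842.HS (VT mem_VT norm_card prime_above card_high)
open Pool.Agent.N647.NG (ch weil_odd quot_finite)
open Pool.Agent.N794.CG (meanD meanD_eq)
open Pool.Agent.R459.Eq (pri mem_pri)

/-- the trace of the Frobenius -/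
noncomputable def tr (κ : Type) [CommRing κ] (f : ℤ[X]) : ℝ :=
  (Nat.card κ : ℝ) - Nat.card {P : κ × κ // P.2 ^ 2 = (f.map (Int.castRingHom κ)).eval P.1}

lemma tr_iso {κ κ' : Type} [CommRing κ] [CommRing κ'] (e : κ ≃+* κ') (f : ℤ[X]) : tr κ f = tr κ' f := by
  have h1 : ∀ x : κ, e ((f.map (Int.castRingHom κ)).eval x) = (f.map (Int.castRingHom κ')).eval (e x) := by
    intro x
    rw [eval_map, eval_map]
    have h2 := Polynomial.hom_eval₂ f (Int.castRingHom κ) (e : κ →+* κ') x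
    have h3 : (e : κ →+* κ').comp (Int.castRingHom κ) = Int.castRingHom κ' := RingHom.ext_int _ _
    rw [h3] at h2
    exact h2
  unfold tr
  rw [Nat.card_congr e.toEquiv]
  congr 2
  refine Nat.card_congr ⟨fun P => ⟨(e P.1.1, e P.1.2), ?_⟩, fun P => ⟨(e.symm P.1.1, e.symm P.1.2), ?_⟩, ?_, ?_⟩
  · show (e P.1.2) ^ 2 = _
    rw [← map_pow, P.2, h1]
  · show (e.symm P.1.2) ^ 2 = _
    apply e.injective
    rw [map_pow, RingEquiv.apply_symm_apply, P.2, h1]
    show _ = (f.map (Int.castRingHom κ')).eval (e (e.symm P.1.1))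
    rw [RingEquiv.apply_symm_apply]
  · intro P
    ext <;> simp
  · intro P
    ext <;> simp

lemma tr_le {κ : Type} [Field κ] [Fintype κ] (h2 : ringChar κ ≠ 2) (f : ℤ[X]) (hf : f.Monic) (hd : f.natDegree = 3) :
    |tr κ f| ≤ 2 * √(Fintype.card κ : ℝ) := by
  classical
  unfold tr
  have h1 := Pool.Agent.T3h87.RP.card_two h2 (fun x => (f.map (Int.castRingHom κ)).eval x)
  have h3 : (Nat.card {P : κ × κ // P.2 ^ 2 = (f.map (Int.castRingHom κ)).eval P.1} : ℝ) =
      (Fintype.card κ : ℝ) + ∑ x, ch ((f.map (Int.castRingHom κ)).eval x) := h1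
  rw [h3, Nat.card_eq_fintype_card]
  have h4 := weil_odd h2 (g := 1) (hf.map (Int.castRingHom κ)) (by rw [hf.natDegree_map, hd])
  have e1 : (Fintype.card κ : ℝ) - ((Fintype.card κ : ℝ) + ∑ x, ch ((f.map (Int.castRingHom κ)).eval x)) =
      -∑ x, ch ((f.map (Int.castRingHom κ)).eval x) := by ring
  rw [e1, abs_neg]
  refine h4.trans (le_of_eq ?_)
  push_cast
  ring

section
variable {D : ℕ}

/-- the member of the family -/
noncomputable def spec (P : (MvPolynomial (Fin D) ℤ)[X]) (m : Fin D → ℤ) : ℤ[X] := P.map (MvPolynomial.eval m)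

lemma spec_map (P : (MvPolynomial (Fin D) ℤ)[X]) (m : Fin D → ℤ) (p : ℕ) : (spec P m).map (Int.castRingHom (ZMod p)) =
    P.map (MvPolynomial.eval₂Hom (Int.castRingHom (ZMod p)) (fun l => (m l : ZMod p))) := by
  unfold spec
  rw [Polynomial.map_map]
  congr 1
  refine MvPolynomial.ringHom_ext (fun a => ?_) (fun i => ?_)
  · simp
  · simp

lemma tr_per (P : (MvPolynomial (Fin D) ℤ)[X]) (p : ℕ) (m m' : Fin D → ℤ) (h : ∀ l, (p : ℤ) ∣ m l - m' l) :
    tr (ZMod p) (spec P m) = tr (ZMod p) (spec P m') := by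
  have h2 : (fun l => (m l : ZMod p)) = fun l => (m' l : ZMod p) := by
    funext l
    have h3 := (ZMod.intCast_zmod_eq_zero_iff_dvd (m l - m' l) p).2 (h l)
    push_cast at h3
    exact sub_eq_zero.1 h3
  unfold tr
  rw [spec_map, spec_map, h2]

lemma spec_monic (P : (MvPolynomial (Fin D) ℤ)[X]) (hP : P.Monic) (hd : P.natDegree = 3) (m : Fin D → ℤ) :
    (spec P m).Monic ∧ (spec P m).natDegree = 3 := ⟨hP.map _, by unfold spec; rw [hP.natDegree_map, hd]⟩

end

section
variable {K : Type} [Field K] [NumberField K]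

lemma quot_iso (v : HeightOneSpectrum (𝓞 K)) (p : ℕ) (hp : p.Prime) (h : Ideal.absNorm v.asIdeal = p) :
    Nonempty (ZMod p ≃+* (𝓞 K ⧸ v.asIdeal)) := by
  have hfin := quot_finite v
  let ft : Fintype (𝓞 K ⧸ v.asIdeal) := Fintype.ofFinite _
  refine ⟨ZMod.ringEquivOfPrime (𝓞 K ⧸ v.asIdeal) hp ?_⟩
  rw [← Nat.card_eq_fintype_card, ← norm_card, h]

lemma tr_v (v : HeightOneSpectrum (𝓞 K)) (p : ℕ) (hp : p.Prime) (h : Ideal.absNorm v.asIdeal = p) (f : ℤ[X]) :
    tr (𝓞 K ⧸ v.asIdeal) f = tr (ZMod p) f := by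
  obtain ⟨e⟩ := quot_iso v p hp h
  exact (tr_iso e f).symm

lemma dvd_of_mem (v : HeightOneSpectrum (𝓞 K)) (p : ℕ) (hp : p.Prime) (h : Ideal.absNorm v.asIdeal = p) (a : ℤ)
    (ha : (a : 𝓞 K) ∈ v.asIdeal) : (p : ℤ) ∣ a := by
  obtain ⟨e⟩ := quot_iso v p hp h
  have h1 : ((a : ℤ) : 𝓞 K ⧸ v.asIdeal) = 0 := by
    rw [← map_intCast (Ideal.Quotient.mk v.asIdeal)]
    exact Ideal.Quotient.eq_zero_iff_mem.2 ha
  have h2 : e (a : ZMod p) = 0 := by
    rw [map_intCast]
    exact h1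
  rw [← ZMod.intCast_zmod_eq_zero_iff_dvd]
  exact (map_eq_zero_iff e e.injective).1 h2

/-- the prime ideals of norm `p` -/
noncomputable def Vd (K : Type) [Field K] [NumberField K] (p : ℕ) : Finset (HeightOneSpectrum (𝓞 K)) := by
  classical exact (VT K p).filter (fun v => Ideal.absNorm v.asIdeal = p)

lemma mem_Vd (p : ℕ) (v : HeightOneSpectrum (𝓞 K)) : v ∈ Vd K p ↔ Ideal.absNorm v.asIdeal = p := by
  classical
  unfold Vd
  rw [mem_filter, mem_VT]
  constructor
  · exact fun h => h.2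
  · exact fun h => ⟨h.le, h⟩

lemma card_Vd (p : ℕ) (hp : p.Prime) (n : ℕ) (hn : Module.finrank ℤ (𝓞 K) ≤ n) : ((Vd K p).card : ℝ) ≤ n := by
  have h1 := prime_above K p hp (Vd K p) (fun v hv => by
    rw [mem_Vd] at hv
    rw [← hv]
    exact Ideal.absNorm_mem _)
  exact_mod_cast h1.trans hn

/-- the weight of a prime number -/
noncomputable def uw (n : ℕ) (χ : HeightOneSpectrum (𝓞 K) → ℝ) (p : ℕ) : ℝ := (∑ v ∈ Vd K p, χ v) / (n + 1)

lemma uw_le (n : ℕ) (hn : Module.finrank ℤ (𝓞 K) ≤ n) (χ : HeightOneSpectrum (𝓞 K) → ℝ) (hχ : ∀ v, |χ v| ≤ 1) (p : ℕ) (hp : p.Prime) :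
    |uw n χ p| ≤ 1 := by
  have hn0 : (0 : ℝ) ≤ n := Nat.cast_nonneg _
  unfold uw
  rw [abs_div, abs_of_pos (by positivity : (0 : ℝ) < (n : ℝ) + 1), div_le_one (by positivity)]
  refine (abs_sum_le_sum_abs _ _).trans ((sum_le_sum fun v _ => hχ v).trans ?_)
  rw [sum_const, nsmul_eq_mul, mul_one]
  have := card_Vd (K := K) p hp n hn
  linarith

/-- the local condition -/
def Compat (α : HeightOneSpectrum (𝓞 K) → ℝ) (z : ℤ) (f : ℤ[X]) : Prop :=
  (∀ v, |α v| ≤ 2 * √(Ideal.absNorm v.asIdeal : ℝ)) ∧ ∀ v, ((2 * z : ℤ) : 𝓞 K) ∉ v.asIdeal → α v = tr (𝓞 K ⧸ v.asIdeal) f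

open Classical in
/-- **reduction to the prime numbers** -/
lemma sum_red (n : ℕ) (hn : Module.finrank ℤ (𝓞 K) ≤ n) (χ : HeightOneSpectrum (𝓞 K) → ℝ) (hχ : ∀ v, |χ v| ≤ 1)
    (α : HeightOneSpectrum (𝓞 K) → ℝ) (z : ℤ) (f : ℤ[X]) (hf : f.Monic) (hd : f.natDegree = 3) (hα : Compat α z f) (x : ℕ) (hx : 1 ≤ x) :
    |∑ v ∈ VT K x, χ v * (α v * Real.log (Ideal.absNorm v.asIdeal))| ≤
      2 * (n + 1) * |∑ p ∈ pri x, (if p = 2 then 0 else uw n χ p * tr (ZMod p) f / (2 * √(p : ℝ))) * (√(p : ℝ) * Real.log p)| +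
      4 * n * (∑ p ∈ pri x, (if (p : ℤ) ∣ z then 1 else 0) * (√(p : ℝ) * Real.log p) + 2) + 2 * n * (x * Real.log x) := by
  obtain ⟨hα1, hα2⟩ := hα
  have hn0 : (0 : ℝ) ≤ n := Nat.cast_nonneg _
  have hx1 : (1 : ℝ) ≤ x := by exact_mod_cast hx
  -- the primes of higher degree
  have hhigh : |∑ v ∈ (VT K x).filter (fun v => ¬ (Ideal.absNorm v.asIdeal).Prime), χ v * (α v * Real.log (Ideal.absNorm v.asIdeal))| ≤
      2 * n * (x * Real.log x) := by
    refine (abs_sum_le_sum_abs _ _).trans ?_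
    have h1 : ∀ v ∈ (VT K x).filter (fun v => ¬ (Ideal.absNorm v.asIdeal).Prime),
        |χ v * (α v * Real.log (Ideal.absNorm v.asIdeal))| ≤ 2 * √(x : ℝ) * Real.log x := by
      intro v hv
      rw [mem_filter, mem_VT] at hv
      have hq0 : 0 < Ideal.absNorm v.asIdeal := by
        have h0 := Pool.Agent.N647.NG.rc_le v
        have h00 := (Pool.Agent.N647.NG.rc_prime v).pos
        omega
      have hq1 : (1 : ℝ) ≤ Ideal.absNorm v.asIdeal := by exact_mod_cast hq0
      have hqx : (Ideal.absNorm v.asIdeal : ℝ) ≤ x := by exact_mod_cast hv.1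
      have hl0 : 0 ≤ Real.log (Ideal.absNorm v.asIdeal) := Real.log_natCast_nonneg _
      rw [abs_mul, abs_mul, abs_of_nonneg hl0]
      have h2 : |α v| ≤ 2 * √(x : ℝ) := (hα1 v).trans (by
        have := Real.sqrt_le_sqrt hqx
        linarith)
      have h3 : Real.log (Ideal.absNorm v.asIdeal) ≤ Real.log x := Real.log_le_log (by linarith) hqx
      calc |χ v| * (|α v| * Real.log (Ideal.absNorm v.asIdeal)) ≤ 1 * (2 * √(x : ℝ) * Real.log x) :=
            mul_le_mul (hχ v) (mul_le_mul h2 h3 hl0 (by positivity)) (mul_nonneg (abs_nonneg _) hl0) (by norm_num)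
        _ = _ := one_mul _
    refine (sum_le_sum h1).trans ?_
    rw [sum_const, nsmul_eq_mul]
    have h2 := card_high (K := K) x
    have h3 : (((VT K x).filter (fun v => ¬ (Ideal.absNorm v.asIdeal).Prime)).card : ℝ) ≤ n * √(x : ℝ) := by
      have h4 : (((VT K x).filter (fun v => ¬ (Ideal.absNorm v.asIdeal).Prime)).card : ℝ) ≤ Module.finrank ℤ (𝓞 K) * (Nat.sqrt x : ℝ) := by
        exact_mod_cast h2
      have h5 : (Nat.sqrt x : ℝ) ≤ √(x : ℝ) := by
        apply Real.le_sqrt_of_sq_le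
        have := Nat.sqrt_le' x
        exact_mod_cast this
      have h6 : (Module.finrank ℤ (𝓞 K) : ℝ) ≤ n := by exact_mod_cast hn
      exact h4.trans (mul_le_mul h6 h5 (Nat.cast_nonneg _) hn0)
    have hl0 : 0 ≤ Real.log x := Real.log_natCast_nonneg _
    calc _ ≤ (n * √(x : ℝ)) * (2 * √(x : ℝ) * Real.log x) := mul_le_mul_of_nonneg_right h3 (by positivity)
      _ = 2 * n * (√(x : ℝ) * √(x : ℝ) * Real.log x) := by ring
      _ = _ := by rw [Real.mul_self_sqrt (by linarith)]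
  -- the primes of degree one
  have hlow : ∑ v ∈ (VT K x).filter (fun v => (Ideal.absNorm v.asIdeal).Prime), χ v * (α v * Real.log (Ideal.absNorm v.asIdeal)) =
      ∑ p ∈ pri x, ∑ v ∈ Vd K p, χ v * (α v * Real.log p) := by
    rw [← sum_fiberwise_of_maps_to (s := (VT K x).filter (fun v => (Ideal.absNorm v.asIdeal).Prime)) (t := pri x)
      (g := fun v => Ideal.absNorm v.asIdeal)]
    · refine sum_congr rfl fun p hp => ?_
      have hpp := mem_pri.1 hp
      have h1 : ((VT K x).filter (fun v => (Ideal.absNorm v.asIdeal).Prime)).filter (fun v => Ideal.absNorm v.asIdeal = p) = Vd K p := by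
        ext v
        rw [mem_filter, mem_filter, mem_VT, mem_Vd]
        constructor
        · exact fun h => h.2
        · intro h
          rw [h]
          exact ⟨⟨hpp.1, hpp.2⟩, rfl⟩
      rw [h1]
      refine sum_congr rfl fun v hv => ?_
      rw [mem_Vd] at hv
      rw [hv]
    · intro v hv
      rw [mem_filter, mem_VT] at hv
      exact mem_pri.2 hv
  have hdiff : ∀ p ∈ pri x, |∑ v ∈ Vd K p, χ v * (α v * Real.log p) -
      2 * (n + 1) * ((if p = 2 then 0 else uw n χ p * tr (ZMod p) f / (2 * √(p : ℝ))) * (√(p : ℝ) * Real.log p))| ≤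
      4 * n * ((if (p : ℤ) ∣ z then 1 else 0) * (√(p : ℝ) * Real.log p) + if p = 2 then 2 else 0) := by
    intro p hp
    have hpp := (mem_pri.1 hp).2
    have hp0 : (0 : ℝ) < p := by exact_mod_cast hpp.pos
    have hsp : 0 < √(p : ℝ) := Real.sqrt_pos.2 hp0
    have hl0 : 0 ≤ Real.log (p : ℝ) := Real.log_natCast_nonneg _
    obtain ⟨a, ha⟩ : ∃ a : ℝ, a = if p = 2 then 0 else tr (ZMod p) f := ⟨_, rfl⟩
    have ha1 : |a| ≤ 2 * √(p : ℝ) := by
      rw [ha]
      split_ifs with h2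
      · rw [abs_zero]
        positivity
      · have hF : Fact p.Prime := ⟨hpp⟩
        have h3 := tr_le (κ := ZMod p) (by rwa [ZMod.ringChar_zmod_n]) f hf hd
        rwa [ZMod.card] at h3
    have e1 : 2 * ((n : ℝ) + 1) * ((if p = 2 then 0 else uw n χ p * tr (ZMod p) f / (2 * √(p : ℝ))) * (√(p : ℝ) * Real.log p)) =
        ∑ v ∈ Vd K p, χ v * (a * Real.log p) := by
      rw [← sum_mul, ha]
      unfold uw
      have hn1 : ((n : ℝ) + 1) ≠ 0 := by positivity
      split_ifs with h2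
      · ring
      · field_simp
    rw [e1, ← sum_sub_distrib]
    by_cases hbad : (p : ℤ) ∣ z ∨ p = 2
    · have h1 : ∀ v ∈ Vd K p, |χ v * (α v * Real.log p) - χ v * (a * Real.log p)| ≤ 4 * (√(p : ℝ) * Real.log p) := by
        intro v hv
        rw [mem_Vd] at hv
        have h2 := hα1 v
        rw [hv] at h2
        have e2 : χ v * (α v * Real.log p) - χ v * (a * Real.log p) = χ v * ((α v - a) * Real.log p) := by ring
        rw [e2, abs_mul, abs_mul, abs_of_nonneg hl0]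
        have h3 : |α v - a| ≤ 4 * √(p : ℝ) := by
          have := abs_sub (α v) a
          linarith
        calc |χ v| * (|α v - a| * Real.log p) ≤ 1 * (4 * √(p : ℝ) * Real.log p) :=
              mul_le_mul (hχ v) (mul_le_mul_of_nonneg_right h3 hl0) (mul_nonneg (abs_nonneg _) hl0) (by norm_num)
          _ = _ := by ring
      refine (abs_sum_le_sum_abs _ _).trans ((sum_le_sum h1).trans ?_)
      rw [sum_const, nsmul_eq_mul]
      have h2 := card_Vd (K := K) p hpp n hn
      have h3 : 0 ≤ √(p : ℝ) * Real.log p := by positivity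
      have h4 : √(p : ℝ) * Real.log p ≤ (if (p : ℤ) ∣ z then 1 else 0) * (√(p : ℝ) * Real.log p) + if p = 2 then 2 else 0 := by
        by_cases hz : (p : ℤ) ∣ z
        · rw [if_pos hz, one_mul]
          split_ifs <;> linarith
        · have hp2 : p = 2 := by
            rcases hbad with h | h
            · exact absurd h hz
            · exact h
          rw [if_neg hz, if_pos hp2, zero_mul, zero_add, hp2]
          push_cast
          have h5 : √(2 : ℝ) ≤ 2 := by
            rw [Real.sqrt_le_left (by norm_num)]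
            norm_num
          have h6 : Real.log 2 ≤ 1 := by have := Real.log_two_lt_d9; linarith
          have h7 : 0 ≤ Real.log 2 := Real.log_nonneg (by norm_num)
          calc √(2 : ℝ) * Real.log 2 ≤ 2 * 1 := mul_le_mul h5 h6 h7 (by norm_num)
            _ = 2 := by norm_num
      calc ((Vd K p).card : ℝ) * (4 * (√(p : ℝ) * Real.log p)) ≤ n * (4 * (√(p : ℝ) * Real.log p)) :=
            mul_le_mul_of_nonneg_right h2 (by positivity)
        _ = 4 * n * (√(p : ℝ) * Real.log p) := by ring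
        _ ≤ _ := mul_le_mul_of_nonneg_left h4 (by positivity)
    · push Not at hbad
      have h1 : ∀ v ∈ Vd K p, χ v * (α v * Real.log p) - χ v * (a * Real.log p) = 0 := by
        intro v hv
        rw [mem_Vd] at hv
        have h2 : ((2 * z : ℤ) : 𝓞 K) ∉ v.asIdeal := by
          intro h3
          have h4 := dvd_of_mem v p hpp hv _ h3
          rcases (Nat.prime_iff_prime_int.1 hpp).dvd_or_dvd h4 with h5 | h5
          · have h6 : p ∣ 2 := by exact_mod_cast h5
            exact hbad.2 ((Nat.prime_dvd_prime_iff_eq hpp Nat.prime_two).1 h6)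
          · exact hbad.1 h5
        rw [hα2 v h2, tr_v v p hpp hv, ha, if_neg hbad.2, sub_self]
      rw [sum_congr rfl h1, sum_const_zero, abs_zero, if_neg hbad.1, if_neg hbad.2]
      norm_num
  rw [← sum_filter_add_sum_filter_not (VT K x) (fun v => (Ideal.absNorm v.asIdeal).Prime), hlow]
  obtain ⟨A, hA⟩ : ∃ A : ℕ → ℝ, A = fun p => (if p = 2 then 0 else uw n χ p * tr (ZMod p) f / (2 * √(p : ℝ))) * (√(p : ℝ) * Real.log p) := ⟨_, rfl⟩
  have hsumdiff : |∑ p ∈ pri x, ∑ v ∈ Vd K p, χ v * (α v * Real.log p) - 2 * (n + 1) * ∑ p ∈ pri x, A p| ≤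
      4 * n * (∑ p ∈ pri x, (if (p : ℤ) ∣ z then 1 else 0) * (√(p : ℝ) * Real.log p) + 2) := by
    rw [mul_sum, ← sum_sub_distrib]
    refine (abs_sum_le_sum_abs _ _).trans ?_
    have h1 : ∀ p ∈ pri x, |∑ v ∈ Vd K p, χ v * (α v * Real.log p) - 2 * (n + 1) * A p| ≤
      4 * n * ((if (p : ℤ) ∣ z then 1 else 0) * (√(p : ℝ) * Real.log p) + if p = 2 then 2 else 0) := by
      intro p hp
      rw [hA]
      exact hdiff p hp
    refine (sum_le_sum h1).trans ?_
    rw [← mul_sum, sum_add_distrib]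
    apply mul_le_mul_of_nonneg_left _ (by positivity)
    have h2 : ∑ p ∈ pri x, (if p = 2 then (2 : ℝ) else 0) ≤ 2 := by
      rw [sum_ite_eq']
      split_ifs <;> norm_num
    linarith
  have hAe : ∑ p ∈ pri x, A p = ∑ p ∈ pri x, (if p = 2 then 0 else uw n χ p * tr (ZMod p) f / (2 * √(p : ℝ))) * (√(p : ℝ) * Real.log p) := by
    rw [hA]
  rw [← hAe]
  have h9 := abs_add_le (∑ p ∈ pri x, ∑ v ∈ Vd K p, χ v * (α v * Real.log p) - 2 * (n + 1) * ∑ p ∈ pri x, A p) (2 * (n + 1) * ∑ p ∈ pri x, A p)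
  rw [sub_add_cancel, abs_mul (2 * ((n : ℝ) + 1)), abs_of_nonneg (by positivity : (0 : ℝ) ≤ 2 * ((n : ℝ) + 1))] at h9
  refine (abs_add_le _ _).trans ?_
  linarith

end

end Pool.Agent.T3h87.HK
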