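import Pool.Agent.T3h87.HK.Loc

/-!
# Sums of the traces over the prime ideals of many number fields
-/

set_option autoImplicit false

namespace Pool.Agent.T3h87.HK

open Finset Polynomial NumberField IsDedekindDomain Filter
open Pool.Agent.N842.HS (VT mem_VT norm_card prime_above card_high)
open Pool.Agent.N647.NG (ch weil_odd quot_finite)
open Pool.Agent.N794.CG (meanD meanD_eq)
open Pool.Agent.R459.Eq (pri mem_pri mean)
open Pool.Agent.T3h87.LT

/-- the final inequality -/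
lemma fin2 (n : ℕ) (δ : ℝ) (hδ : 0 < δ) : ∃ X₁ : ℕ, 1 ≤ X₁ ∧ ∀ x : ℕ, X₁ ≤ x →
    2 * ((n : ℝ) + 1) * (x : ℝ) ^ (1 + δ / 2) + 4 * n * ((x : ℝ) ^ (1 + δ / 2) + 2) + 2 * n * (x * Real.log x) ≤ (x : ℝ) ^ (1 + δ) := by
  have h1 : ∀ᶠ x : ℕ in atTop, 2 * ((n : ℝ) + 1) + 12 * n + 2 * n * (1 / (δ / 2)) ≤ (x : ℝ) ^ (δ / 2) :=
    ((tendsto_rpow_atTop (by positivity : 0 < δ / 2)).comp tendsto_natCast_atTop_atTop).eventually_ge_atTop _
  obtain ⟨X₁, hX₁⟩ := eventually_atTop.1 h1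
  refine ⟨X₁ + 1, by omega, fun x hx => ?_⟩
  have h2 := hX₁ x (by omega)
  have hx1 : (1 : ℝ) ≤ x := by exact_mod_cast (by omega : 1 ≤ x)
  have hx0 : (0 : ℝ) < x := by linarith
  have hn0 : (0 : ℝ) ≤ n := Nat.cast_nonneg _
  obtain ⟨A, hA⟩ : ∃ A : ℝ, A = (x : ℝ) ^ (1 + δ / 2) := ⟨_, rfl⟩
  have hA1 : 1 ≤ A := by rw [hA]; exact Real.one_le_rpow hx1 (by positivity)
  have h3 : (x : ℝ) ^ (1 + δ) = (x : ℝ) ^ (δ / 2) * A := by
    rw [hA, ← Real.rpow_add hx0]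
    congr 1
    ring
  have h4 : x * Real.log x ≤ 1 / (δ / 2) * A := by
    have h5 := Real.log_le_rpow_div hx0.le (by positivity : 0 < δ / 2)
    have h6 : A = x * (x : ℝ) ^ (δ / 2) := by
      rw [hA, Real.rpow_add hx0, Real.rpow_one]
    calc (x : ℝ) * Real.log x ≤ x * ((x : ℝ) ^ (δ / 2) / (δ / 2)) := mul_le_mul_of_nonneg_left h5 hx0.le
      _ = _ := by rw [h6]; ring
  rw [h3, ← hA]
  calc 2 * ((n : ℝ) + 1) * A + 4 * n * (A + 2) + 2 * n * (x * Real.log x) ≤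
        2 * ((n : ℝ) + 1) * A + 4 * n * (A + 2 * A) + 2 * n * (1 / (δ / 2) * A) := by
        have h5 := mul_le_mul_of_nonneg_left h4 (by positivity : 0 ≤ 2 * (n : ℝ))
        have h6 := mul_le_mul_of_nonneg_left hA1 (by positivity : 0 ≤ 8 * (n : ℝ))
        linarith
    _ = (2 * ((n : ℝ) + 1) + 12 * n + 2 * n * (1 / (δ / 2))) * A := by ring
    _ ≤ _ := mul_le_mul_of_nonneg_right h2 (by linarith)

section
variable {D : ℕ}

open Classical in
/-- the system -/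
noncomputable def sys (P : (MvPolynomial (Fin D) ℤ)[X]) (Z : MvPolynomial (Fin D) ℤ) (u : ℕ → ℕ → ℝ) (i p : ℕ) (m : Fin D → ℤ) : ℝ :=
  if i % 2 = 0 then (if p = 2 then 0 else u (i / 2) p * tr (ZMod p) (spec P m) / (2 * √(p : ℝ)))
  else if (p : ℤ) ∣ MvPolynomial.eval m Z then 1 else 0

variable (P : (MvPolynomial (Fin D) ℤ)[X]) (hP : P.Monic) (hd : P.natDegree = 3) (Z : MvPolynomial (Fin D) ℤ) (u : ℕ → ℕ → ℝ)
  (hu : ∀ j p : ℕ, p.Prime → |u j p| ≤ 1)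

include hP hd hu in
lemma sys_abs (i p : ℕ) (hp : p.Prime) (m : Fin D → ℤ) : |sys P Z u i p m| ≤ 1 := by
  classical
  have hp0 : (0 : ℝ) < p := by exact_mod_cast hp.pos
  have hsp : 0 < √(p : ℝ) := Real.sqrt_pos.2 hp0
  unfold sys
  split_ifs with h1 h2 h3
  · rw [abs_zero]
    norm_num
  · have hF : Fact p.Prime := ⟨hp⟩
    obtain ⟨q1, q2⟩ := spec_monic P hP hd m
    have h3 := tr_le (κ := ZMod p) (by rwa [ZMod.ringChar_zmod_n]) (spec P m) q1 q2
    rw [ZMod.card] at h3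
    rw [abs_div, abs_mul, abs_of_pos (by positivity : (0 : ℝ) < 2 * √(p : ℝ)), div_le_one (by positivity)]
    calc |u (i / 2) p| * |tr (ZMod p) (spec P m)| ≤ 1 * (2 * √(p : ℝ)) :=
          mul_le_mul (hu _ _ hp) h3 (abs_nonneg _) (by norm_num)
      _ = _ := one_mul _
  · norm_num
  · rw [abs_zero]
    norm_num

include hP hd hu in
lemma sys_sys : SysR (sys P Z u) := by
  classical
  refine ⟨fun i p hp m m' h => ?_, fun i p hp m => ?_, fun i p hp => ?_⟩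
  · have h1 : ((p : ℤ) ∣ MvPolynomial.eval m Z) ↔ ((p : ℤ) ∣ MvPolynomial.eval m' Z) := by
      have h2 : (fun l => (m l : ZMod p)) = fun l => (m' l : ZMod p) := by
        funext l
        have h3 := (ZMod.intCast_zmod_eq_zero_iff_dvd (m l - m' l) p).2 (h l)
        push_cast at h3
        exact sub_eq_zero.1 h3
      rw [dvd_eval, dvd_eval, h2]
    unfold sys
    rw [tr_per P p m m' h]
    simp only [h1]
  · refine (sys_abs P hP hd Z u hu i p hp m).trans ?_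
    exact Real.one_le_sqrt.2 (by exact_mod_cast hp.one_lt.le)
  · have h1 : ∀ m, sys P Z u i p m ^ 2 ≤ 1 := by
      intro m
      rw [sq_le_one_iff_abs_le_one]
      exact sys_abs P hP hd Z u hu i p hp m
    refine (meanD_mono p D _ _ h1).trans ?_
    rw [meanD_one p D hp.pos]

include hu in
open Classical in
lemma sys_mean (C : ℝ) (hC : 0 ≤ C) (hmean : ∀ p : ℕ, p.Prime → p ≠ 2 → |meanD p D (fun m => tr (ZMod p) (spec P m))| ≤ C)
    (CZ : ℝ) (hCZ : 1 ≤ CZ) (hz : ∀ p : ℕ, p.Prime → meanD p D (fun m => if (p : ℤ) ∣ MvPolynomial.eval m Z then 1 else 0) ≤ CZ / p)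
    (i p : ℕ) (hp : p.Prime) : |meanD p D (sys P Z u i p)| ≤ (C + CZ) * (1 / √(p : ℝ)) := by
  have hp0 : (0 : ℝ) < p := by exact_mod_cast hp.pos
  have hp1 : (1 : ℝ) ≤ p := by exact_mod_cast hp.one_lt.le
  have hsp : 0 < √(p : ℝ) := Real.sqrt_pos.2 hp0
  have hsp1 : 1 ≤ √(p : ℝ) := Real.one_le_sqrt.2 hp1
  have hspp : √(p : ℝ) ≤ p := by
    rw [Real.sqrt_le_left hp0.le]
    nlinarith
  by_cases h2 : i % 2 = 0
  · by_cases h3 : p = 2
    · have e1 : sys P Z u i p = fun _ => 0 * 1 := by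
        funext m
        unfold sys
        rw [if_pos h2, if_pos h3, zero_mul]
      rw [e1, meanD_mul, zero_mul, abs_zero]
      positivity
    · have e1 : sys P Z u i p = fun m => (u (i / 2) p / (2 * √(p : ℝ))) * tr (ZMod p) (spec P m) := by
        funext m
        unfold sys
        rw [if_pos h2, if_neg h3]
        ring
      rw [e1, meanD_mul, abs_mul, abs_div, abs_of_pos (by positivity : (0 : ℝ) < 2 * √(p : ℝ))]
      have h4 := hmean p hp h3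
      have h5 : |u (i / 2) p| / (2 * √(p : ℝ)) ≤ 1 / √(p : ℝ) := by
        rw [div_le_div_iff₀ (by positivity) hsp]
        have := hu (i / 2) p hp
        nlinarith
      calc |u (i / 2) p| / (2 * √(p : ℝ)) * |meanD p D (fun m => tr (ZMod p) (spec P m))| ≤ 1 / √(p : ℝ) * C :=
            mul_le_mul h5 h4 (abs_nonneg _) (by positivity)
        _ = C * (1 / √(p : ℝ)) := by ring
        _ ≤ _ := mul_le_mul_of_nonneg_right (by linarith) (by positivity)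
  · have e1 : sys P Z u i p = fun m => if (p : ℤ) ∣ MvPolynomial.eval m Z then 1 else 0 := by
      funext m
      unfold sys
      rw [if_neg h2]
    rw [e1]
    have h3 : 0 ≤ meanD p D (fun m => if (p : ℤ) ∣ MvPolynomial.eval m Z then (1 : ℝ) else 0) :=
      meanD_nn p D _ fun m => by split_ifs <;> norm_num
    rw [abs_of_nonneg h3]
    refine (hz p hp).trans ?_
    calc CZ / p ≤ CZ / √(p : ℝ) := div_le_div_of_nonneg_left (by linarith) hsp hspp
      _ = CZ * (1 / √(p : ℝ)) := by ring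
      _ ≤ _ := mul_le_mul_of_nonneg_right (by linarith) (by positivity)

end

/-- **Sums of the traces over the prime ideals of many number fields.** -/
theorem hk_main (D : ℕ) (𝓕 : Fin D → ℤ → Set Fam) (h𝓕 : ∀ l, Kind (𝓕 l)) (P : (MvPolynomial (Fin D) ℤ)[X]) (hP : P.Monic)
    (hd : P.natDegree = 3) (C : ℝ) (hC : 0 ≤ C) (hmean : ∀ p : ℕ, p.Prime → p ≠ 2 → |meanD p D (fun m => tr (ZMod p) (spec P m))| ≤ C)
    (Z : MvPolynomial (Fin D) ℤ) (hZ : Z ≠ 0) (n : ℕ) (δ : ℝ) (hδ : 0 < δ) (hδ1 : δ ≤ 1) :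
    ∃ (W e K : ℕ) (ρ : ℝ), 1 ≤ W ∧ 1 ≤ K ∧ 0 < ρ ∧ ∀ κ : Fin D → ℤ, (∀ l, κ l ≠ 0) → ∃ X₀ : ℕ, ∀ X : ℕ, X₀ ≤ X →
    ∀ f : Fin D → Fam, (∀ l, f l ∈ 𝓕 l (κ l)) →
    ∀ (Kf : ℕ → Type) [∀ j, Field (Kf j)] [∀ j, NumberField (Kf j)], (∀ j, Module.finrank ℤ (𝓞 (Kf j)) ≤ n) →
    ∀ χ : ∀ j, HeightOneSpectrum (𝓞 (Kf j)) → ℝ, (∀ j v, |χ j v| ≤ 1) →
    ∀ E : Finset (∀ l, (f l).ι), E ⊆ Fintype.piFinset (fun l => (f l).set) →
    (∀ i ∈ E, ∃ x : ℕ, X ≤ x ∧ (∀ l, (x : ℝ) ^ W ≤ (f l).size) ∧ ∃ j : ℕ, (j + 1) ^ K ≤ x ∧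
      ∃ α : HeightOneSpectrum (𝓞 (Kf j)) → ℝ,
        Compat α (MvPolynomial.eval (fun l => (f l).val (i l)) Z) (spec P (fun l => (f l).val (i l))) ∧
        (x : ℝ) ^ (1 + δ) < |∑ v ∈ VT (Kf j) x, χ j v * (α v * Real.log (Ideal.absNorm v.asIdeal))|) →
    ∑ i ∈ E, ∏ l, (f l).wt (i l) ≤ (∑ l, (1 + |Real.log (f l).size|) ^ e) * (X : ℝ) ^ (-ρ) := by
  classical
  obtain ⟨CZ, hCZ, hz⟩ := zero_mean Z hZ
  obtain ⟨W, e, K, ρ, hW, hK, hρ, H⟩ := sparse_gen D 𝓕 h𝓕 (C + CZ) (by linarith) (δ / 2) (by positivity) (by linarith)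
  obtain ⟨X₁, hX₁, hfin⟩ := fin2 n δ hδ
  refine ⟨W, e, 2 * K, ρ, hW, by omega, hρ, fun κ hκ => ?_⟩
  obtain ⟨X₀, hX₀, J⟩ := H κ hκ
  refine ⟨X₀ + X₁ + (2 ^ K) ^ 2, fun X hX f hf Kf _ _ hn χ hχ E hE hbad => ?_⟩
  obtain ⟨u, hu⟩ : ∃ u : ℕ → ℕ → ℝ, u = fun j p => uw n (χ j) p := ⟨_, rfl⟩
  have hu1 : ∀ j p : ℕ, p.Prime → |u j p| ≤ 1 := fun j p hp => by
    rw [hu]
    exact uw_le n (hn j) (χ j) (hχ j) p hp
  refine J X (by omega) f hf (sys P Z u) (sys_sys P hP hd Z u hu1) (sys_mean P Z u hu1 C hC hmean CZ hCZ hz) E hE fun i hi => ?_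
  obtain ⟨x, hXx, hsz, j, hj, α, hα, hlt⟩ := hbad i hi
  obtain ⟨m, hm⟩ : ∃ m : Fin D → ℤ, m = fun l => (f l).val (i l) := ⟨_, rfl⟩
  rw [← hm] at hα ⊢
  by_contra hcon
  push Not at hcon
  have h2K : (2 ^ K) ^ 2 ≤ x := by omega
  have hidx : ∀ i' : ℕ, i' + 1 ≤ 2 * (j + 1) → (i' + 1) ^ K ≤ x := by
    intro i' hi'
    refine (Nat.pow_le_pow_left hi' K).trans ?_
    rw [mul_pow]
    have h1 : ((j + 1) ^ K) ^ 2 ≤ x := by
      rw [← pow_mul, mul_comm]
      exact hj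
    rcases le_total (2 ^ K) ((j + 1) ^ K) with h | h
    · calc 2 ^ K * (j + 1) ^ K ≤ (j + 1) ^ K * (j + 1) ^ K := Nat.mul_le_mul_right _ h
        _ = ((j + 1) ^ K) ^ 2 := (sq _).symm
        _ ≤ x := h1
    · calc 2 ^ K * (j + 1) ^ K ≤ 2 ^ K * 2 ^ K := Nat.mul_le_mul_left _ h
        _ = (2 ^ K) ^ 2 := (sq _).symm
        _ ≤ x := h2K
  have h1 := hcon x hXx hsz (2 * j) (hidx (2 * j) (by omega))
  have h2 := hcon x hXx hsz 1 (hidx 1 (by omega))
  have e1 : ∀ p, sys P Z u (2 * j) p m = if p = 2 then 0 else uw n (χ j) p * tr (ZMod p) (spec P m) / (2 * √(p : ℝ)) := by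
    intro p
    unfold sys
    have : 2 * j / 2 = j := by omega
    rw [if_pos (by omega), this, hu]
  have e2 : ∀ p, sys P Z u 1 p m = if (p : ℤ) ∣ MvPolynomial.eval m Z then 1 else 0 := by
    intro p
    unfold sys
    rw [if_neg (by norm_num)]
  simp only [e1] at h1
  simp only [e2] at h2
  obtain ⟨q1, q2⟩ := spec_monic P hP hd m
  have h3 := sum_red (K := Kf j) n (hn j) (χ j) (hχ j) α (MvPolynomial.eval m Z) (spec P m) q1 q2 hα x (by omega)
  have h4 := hfin x (by omega)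
  have hn0 : (0 : ℝ) ≤ n := Nat.cast_nonneg _
  have h5 : 2 * ((n : ℝ) + 1) * |∑ p ∈ pri x, (if p = 2 then 0 else uw n (χ j) p * tr (ZMod p) (spec P m) / (2 * √(p : ℝ))) *
      (√(p : ℝ) * Real.log p)| ≤ 2 * ((n : ℝ) + 1) * (x : ℝ) ^ (1 + δ / 2) := mul_le_mul_of_nonneg_left h1 (by positivity)
  have h6 : 4 * (n : ℝ) * (∑ p ∈ pri x, (if (p : ℤ) ∣ MvPolynomial.eval m Z then 1 else 0) * (√(p : ℝ) * Real.log p) + 2) ≤
      4 * n * ((x : ℝ) ^ (1 + δ / 2) + 2) := by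
    apply mul_le_mul_of_nonneg_left _ (by positivity)
    have := (le_abs_self _).trans h2
    linarith
  have h7 := h3.trans (add_le_add (add_le_add h5 h6) le_rfl)
  have h8 := h7.trans h4
  linarith

/-! ### Families with mean zero -/

lemma tr_eq {κ : Type} [Field κ] [Fintype κ] [DecidableEq κ] (h2 : ringChar κ ≠ 2) (f : ℤ[X]) :
    tr κ f = -∑ x : κ, ch ((f.map (Int.castRingHom κ)).eval x) := by
  unfold tr
  have h1 := Pool.Agent.T3h87.RP.card_two h2 (fun x => (f.map (Int.castRingHom κ)).eval x)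
  have h3 : (Nat.card {P : κ × κ // P.2 ^ 2 = (f.map (Int.castRingHom κ)).eval P.1} : ℝ) =
      (Fintype.card κ : ℝ) + ∑ x, ch ((f.map (Int.castRingHom κ)).eval x) := h1
  rw [h3, Nat.card_eq_fintype_card]
  ring

/-- the mean over one variable -/
lemma mean_zmod (p : ℕ) [Fact p.Prime] (g : ZMod p → ℝ) : mean p (fun n => g (n : ZMod p)) = (∑ a, g a) / p := by
  have hp : p.Prime := Fact.out
  have h1 := meanD_zmod p hp 1 (fun u : Fin 1 → ZMod p => g (u 0))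
  have h3 : meanD p 1 (fun m : Fin 1 → ℤ => g ((m 0 : ℤ) : ZMod p)) = mean p (fun n => g (n : ZMod p)) := rfl
  rw [ZMod.card, pow_one] at h1
  rw [← h3]
  refine h1.trans ?_
  congr 1
  exact (Fintype.sum_equiv (Equiv.funUnique (Fin 1) (ZMod p)) (fun u : Fin 1 → ZMod p => g (u 0)) g (fun u => rfl))

section
variable {D : ℕ}

/-- the family with a free constant term -/
noncomputable def addFree (Q : (MvPolynomial (Fin D) ℤ)[X]) : (MvPolynomial (Fin (D + 1)) ℤ)[X] :=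
  Q.map (MvPolynomial.rename Fin.succ).toRingHom + C (MvPolynomial.X 0)

lemma addFree_monic (Q : (MvPolynomial (Fin D) ℤ)[X]) (hQ : Q.Monic) (hd : Q.natDegree = 3) :
    (addFree Q).Monic ∧ (addFree Q).natDegree = 3 := by
  have h1 : (Q.map (MvPolynomial.rename Fin.succ).toRingHom : (MvPolynomial (Fin (D + 1)) ℤ)[X]).Monic := hQ.map _
  have h2 : (Q.map (MvPolynomial.rename Fin.succ).toRingHom : (MvPolynomial (Fin (D + 1)) ℤ)[X]).natDegree = 3 := by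
    rw [hQ.natDegree_map, hd]
  have h3 : (C (MvPolynomial.X 0) : (MvPolynomial (Fin (D + 1)) ℤ)[X]).degree <
      (Q.map (MvPolynomial.rename Fin.succ).toRingHom : (MvPolynomial (Fin (D + 1)) ℤ)[X]).degree := by
    rw [degree_eq_natDegree h1.ne_zero, h2]
    exact lt_of_le_of_lt degree_C_le (by norm_num)
  refine ⟨h1.add_of_left h3, ?_⟩
  unfold addFree
  rw [natDegree_add_eq_left_of_degree_lt h3, h2]

lemma spec_addFree (Q : (MvPolynomial (Fin D) ℤ)[X]) (n : ℤ) (m : Fin D → ℤ) :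
    spec (addFree Q) (Fin.cons n m) = spec Q m + C n := by
  unfold spec addFree
  rw [Polynomial.map_add, Polynomial.map_map, map_C, MvPolynomial.eval_X, Fin.cons_zero]
  congr 2
  refine MvPolynomial.ringHom_ext (fun a => ?_) (fun i => ?_)
  · simp
  · simp

lemma mean_addFree (Q : (MvPolynomial (Fin D) ℤ)[X]) (p : ℕ) (hp : p.Prime) (h2 : p ≠ 2) :
    meanD p (D + 1) (fun m => tr (ZMod p) (spec (addFree Q) m)) = 0 := by
  classical
  have hF : Fact p.Prime := ⟨hp⟩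
  have hch : ringChar (ZMod p) ≠ 2 := by rwa [ZMod.ringChar_zmod_n]
  rw [meanD]
  have h1 : ∀ m : Fin D → ℤ, mean p (fun n => tr (ZMod p) (spec (addFree Q) (Fin.cons n m))) = 0 := by
    intro m
    have e1 : (fun n : ℤ => tr (ZMod p) (spec (addFree Q) (Fin.cons n m))) = fun n : ℤ =>
        (fun a : ZMod p => -∑ x : ZMod p, ch (((spec Q m).map (Int.castRingHom (ZMod p))).eval x + a * 1)) (n : ZMod p) := by
      funext n
      rw [tr_eq hch, spec_addFree]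
      congr 1
      refine sum_congr rfl fun x _ => ?_
      rw [Polynomial.map_add, eval_add, map_C, eval_C, mul_one]
      rfl
    rw [e1, mean_zmod p (fun a : ZMod p => -∑ x : ZMod p, ch (((spec Q m).map (Int.castRingHom (ZMod p))).eval x + a * 1)),
      sum_neg_distrib, sum_comm]
    have e2 : ∀ x : ZMod p, ∑ a : ZMod p, ch (((spec Q m).map (Int.castRingHom (ZMod p))).eval x + a * 1) = 0 := fun x =>
      Pool.Agent.N647.NG.sum_ch_affine hch _ _ one_ne_zero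
    rw [sum_congr rfl fun x _ => e2 x, sum_const_zero, neg_zero, zero_div]
  simp only [h1]
  exact Pool.Agent.N794.CG.meanD_zero p D

end

end Pool.Agent.T3h87.HK
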