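import Pool.Agent.T3h87.HK.Main

/-!
# Families of quadratic twists
-/

set_option autoImplicit false

namespace Pool.Agent.T3h87.HK

open Finset Polynomial
open Pool.Agent.N647.NG (ch)
open Pool.Agent.N794.CG (meanD meanD_eq)
open Pool.Agent.R459.Eq (mean)
open Pool.Agent.T3h87.LT

section
variable {κ : Type} [Field κ] [Fintype κ] [DecidableEq κ]

lemma ch_mul' (a b : κ) : ch (a * b) = ch a * ch b := by
  unfold ch
  rw [map_mul]
  push_cast
  rfl

lemma ch_cube (a : κ) : ch (a ^ 3) = ch a := by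
  by_cases ha : a = 0
  · subst ha
    simp
  · have h1 : ch (a ^ 2) = 1 := by
      unfold ch
      rw [map_pow, quadraticChar_sq_one ha]
      norm_num
    rw [pow_succ, ch_mul', h1, one_mul]

lemma sum_ch' (h2 : ringChar κ ≠ 2) : ∑ a : κ, ch a = 0 := by
  have h1 := Pool.Agent.N647.NG.sum_ch_affine h2 (0 : κ) 1 one_ne_zero
  simpa using h1

lemma sum_twist (h2 : ringChar κ ≠ 2) (a b n : κ) :
    ∑ x : κ, ch (x ^ 3 + a * n ^ 2 * x + b * n ^ 3) = ch n * ∑ y : κ, ch (y ^ 3 + a * y + b) := by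
  by_cases hn : n = 0
  · subst hn
    have h0 : ch (0 : κ) = 0 := by
      unfold ch
      simp
    rw [h0, zero_mul]
    have h1 : ∀ x : κ, ch (x ^ 3 + a * 0 ^ 2 * x + b * 0 ^ 3) = ch x := by
      intro x
      rw [← ch_cube x]
      congr 1
      ring
    rw [sum_congr rfl fun x _ => h1 x]
    exact sum_ch' h2
  · rw [mul_sum]
    symm
    refine Fintype.sum_bijective (fun y : κ => n * y) (mulLeft_bijective₀ n hn) _ _ fun y => ?_
    rw [← ch_cube n, ← ch_mul']
    congr 1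
    ring

end

section
variable {D : ℕ}

/-- the family of twists -/
noncomputable def twists (A B : MvPolynomial (Fin D) ℤ) : (MvPolynomial (Fin (D + 1)) ℤ)[X] :=
  X ^ 3 + C (MvPolynomial.rename Fin.succ A * MvPolynomial.X 0 ^ 2) * X + C (MvPolynomial.rename Fin.succ B * MvPolynomial.X 0 ^ 3)

lemma twists_monic (A B : MvPolynomial (Fin D) ℤ) : (twists A B).Monic ∧ (twists A B).natDegree = 3 := by
  unfold twists
  obtain ⟨a, ha⟩ : ∃ a, a = MvPolynomial.rename Fin.succ A * MvPolynomial.X 0 ^ 2 := ⟨_, rfl⟩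
  obtain ⟨b, hb⟩ : ∃ b, b = MvPolynomial.rename Fin.succ B * MvPolynomial.X 0 ^ 3 := ⟨_, rfl⟩
  rw [← ha, ← hb, add_assoc]
  have h3 : (C a * X + C b : (MvPolynomial (Fin (D + 1)) ℤ)[X]).degree < 3 :=
    lt_of_le_of_lt degree_linear_le (by norm_num)
  refine ⟨monic_X_pow_add h3, ?_⟩
  have h4 : (C a * X + C b : (MvPolynomial (Fin (D + 1)) ℤ)[X]).degree < (X ^ 3 : (MvPolynomial (Fin (D + 1)) ℤ)[X]).degree := by
    rw [degree_X_pow]
    exact h3
  rw [natDegree_add_eq_left_of_degree_lt h4, natDegree_X_pow]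

lemma spec_twists (A B : MvPolynomial (Fin D) ℤ) (n : ℤ) (m : Fin D → ℤ) :
    spec (twists A B) (Fin.cons n m) = X ^ 3 + C (MvPolynomial.eval m A * n ^ 2) * X + C (MvPolynomial.eval m B * n ^ 3) := by
  have h1 : ∀ G : MvPolynomial (Fin D) ℤ, MvPolynomial.eval (Fin.cons n m) (MvPolynomial.rename Fin.succ G) = MvPolynomial.eval m G := by
    intro G
    rw [MvPolynomial.eval_rename]
    congr 1
  unfold spec twists
  have hA : MvPolynomial.eval (Fin.cons n m) (MvPolynomial.rename Fin.succ A * MvPolynomial.X 0 ^ 2) = MvPolynomial.eval m A * n ^ 2 := by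
    rw [map_mul, h1, map_pow, MvPolynomial.eval_X, Fin.cons_zero]
  have hB : MvPolynomial.eval (Fin.cons n m) (MvPolynomial.rename Fin.succ B * MvPolynomial.X 0 ^ 3) = MvPolynomial.eval m B * n ^ 3 := by
    rw [map_mul, h1, map_pow, MvPolynomial.eval_X, Fin.cons_zero]
  rw [Polynomial.map_add, Polynomial.map_add, Polynomial.map_mul, Polynomial.map_pow, map_X, map_C, map_C, hA, hB]

lemma mean_twists (A B : MvPolynomial (Fin D) ℤ) (p : ℕ) (hp : p.Prime) (h2 : p ≠ 2) :
    meanD p (D + 1) (fun m => tr (ZMod p) (spec (twists A B) m)) = 0 := by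
  classical
  have hF : Fact p.Prime := ⟨hp⟩
  have hch : ringChar (ZMod p) ≠ 2 := by rwa [ZMod.ringChar_zmod_n]
  rw [meanD]
  have h1 : ∀ m : Fin D → ℤ, mean p (fun n => tr (ZMod p) (spec (twists A B) (Fin.cons n m))) = 0 := by
    intro m
    obtain ⟨S, hS⟩ : ∃ S : ℝ, S = ∑ y : ZMod p, ch (y ^ 3 + ((MvPolynomial.eval m A : ℤ) : ZMod p) * y + ((MvPolynomial.eval m B : ℤ) : ZMod p)) :=
      ⟨_, rfl⟩
    have e1 : (fun n : ℤ => tr (ZMod p) (spec (twists A B) (Fin.cons n m))) = fun n : ℤ => (fun a : ZMod p => -(ch a * S)) (n : ZMod p) := by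
      funext n
      rw [tr_eq hch, spec_twists]
      congr 1
      rw [hS, ← sum_twist hch]
      refine sum_congr rfl fun x _ => ?_
      congr 1
      simp
    rw [e1, mean_zmod p (fun a : ZMod p => -(ch a * S)), sum_neg_distrib, ← sum_mul, sum_ch' hch, zero_mul, neg_zero, zero_div]
  simp only [h1]
  exact Pool.Agent.N794.CG.meanD_zero p D

end

end Pool.Agent.T3h87.HK
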